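import Mathlib

/-!
# A Mengerian set system without `𝒬`-minor whose Menger dual does not have the Menger property

Q1 of `MP_f18e63_co` (Seymour 1977) asks whether `𝓕_{≥1}` has the Menger property whenever `𝓕` is
Mengerian and does not contain `𝒬 = (abc, cde, bdf, aef, cf, be, ad)` as a minor.  The answer is
no: the set system of ten blocks
`{0,6}, {1,6}, {2,7}, {3,7}, {4,8}, {5,8}, {0,2,4}, {1,7,8}, {3,6,8}, {5,6,7}`
on nine points is a counterexample.
-/

set_option autoImplicit false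

open Finset

namespace Pool.Agent.Results.MP_f18e63_co.NineTenCounterexample

section Defs

variable {α : Type} [DecidableEq α]

open Classical in
/-- `𝓕_min`: the inclusion-minimal blocks. -/
noncomputable def minBlocks (F : Finset (Finset α)) : Finset (Finset α) :=
  F.filter (fun B => ∀ D ∈ F, D ⊆ B → D = B)

open Classical in
/-- The subsets of `S` that meet every block of `F`. -/
noncomputable def covers (S : Finset α) (F : Finset (Finset α)) : Finset (Finset α) :=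
  S.powerset.filter (fun C => ∀ B ∈ F, (B ∩ C).Nonempty)

/-- The Menger dual `𝓕_{≥1}`: the inclusion-minimal subsets of the point set `S` that meet every
block of `𝓕_min`.  (For `𝓕_min = {∅}` this is `∅`, for `𝓕 = ∅` it is `{∅}`.) -/
noncomputable def dual (S : Finset α) (F : Finset (Finset α)) : Finset (Finset α) :=
  minBlocks (covers S (minBlocks F))

/-- The Menger property of the set system `(S, F)`: by convention it holds if `∅ ∈ F` or `F = ∅`;
otherwise the largest number of pairwise disjoint blocks of `𝓕_min` equals the least cardinality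
of a block of `𝓕_{≥1}`. -/
def MengerProperty (S : Finset α) (F : Finset (Finset α)) : Prop :=
  ∅ ∈ F ∨ F = ∅ ∨ ∃ n : ℕ,
    IsGreatest {k | ∃ M ⊆ minBlocks F, (M : Set (Finset α)).PairwiseDisjoint id ∧ M.card = k} n ∧
    IsLeast {k | ∃ C ∈ dual S F, C.card = k} n

/-- `(S, F)` is Mengerian: `∅ ∈ F`, or for every `c : S → ℕ` there is `f : F → ℕ` with
`∑_{B ∋ x} f B ≤ c x` for all `x ∈ S` and `∑_B f B = min_{C ∈ 𝓕_{≥1}} ∑_{x ∈ C} c x`. -/
def Mengerian (S : Finset α) (F : Finset (Finset α)) : Prop :=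
  ∅ ∈ F ∨ ∀ c : α → ℕ, ∃ f : Finset α → ℕ,
    (∀ x ∈ S, ∑ B ∈ F.filter (fun B => x ∈ B), f B ≤ c x) ∧
    IsLeast {k | ∃ C ∈ dual S F, ∑ x ∈ C, c x = k} (∑ B ∈ F, f B)

/-- `IsMinor S₀ F₀ S F`: the set system `(S, F)` is reached from `(S₀, F₀)` by a sequence of weak
point-restrictions `(B \ T : B ∈ F)` and strong point-restrictions `(B ∈ F : B ∩ T = ∅)`, both on
the point set `S \ T`. -/
inductive IsMinor (S₀ : Finset α) (F₀ : Finset (Finset α)) :
    Finset α → Finset (Finset α) → Prop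
  | refl : IsMinor S₀ F₀ S₀ F₀
  | weak (S : Finset α) (F : Finset (Finset α)) (T : Finset α) : IsMinor S₀ F₀ S F → T ⊆ S →
      IsMinor S₀ F₀ (S \ T) (F.image (fun B => B \ T))
  | strong (S : Finset α) (F : Finset (Finset α)) (T : Finset α) : IsMinor S₀ F₀ S F → T ⊆ S →
      IsMinor S₀ F₀ (S \ T) (F.filter (fun B => Disjoint B T))

/-- The system `𝒬 = (abc, cde, bdf, aef, cf, be, ad)` with `a, b, c, d, e, f = 0, 1, 2, 3, 4, 5`. -/
def Q : Finset (Finset (Fin 6)) :=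
  {{0, 1, 2}, {2, 3, 4}, {1, 3, 5}, {0, 4, 5}, {2, 5}, {1, 4}, {0, 3}}

/-- `(S, F)` contains `𝒬` as a minor: the minimal blocks of some minor are the blocks of `𝒬`, up to
renaming the points. -/
def ContainsQ (S : Finset α) (F : Finset (Finset α)) : Prop :=
  ∃ (S' : Finset α) (F' : Finset (Finset α)), IsMinor S F S' F' ∧
    ∃ φ : Fin 6 → α, Function.Injective φ ∧ minBlocks F' = Q.image (fun B => B.image φ)

end Defs

/-- The ten blocks. -/
def Sys : Finset (Finset (Fin 9)) :=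
  {{0, 6}, {1, 6}, {2, 7}, {3, 7}, {4, 8}, {5, 8}, {0, 2, 4}, {1, 7, 8}, {3, 6, 8}, {5, 6, 7}}

lemma mem_minBlocks {α : Type} [DecidableEq α] {F : Finset (Finset α)} {B : Finset α} :
    B ∈ minBlocks F ↔ B ∈ F ∧ ∀ D ∈ F, D ⊆ B → D = B := by
  unfold minBlocks
  rw [Finset.mem_filter]

lemma mem_covers {α : Type} [DecidableEq α] {S : Finset α} {F : Finset (Finset α)}
    {C : Finset α} : C ∈ covers S F ↔ C ⊆ S ∧ ∀ B ∈ F, (B ∩ C).Nonempty := by
  unfold covers
  rw [Finset.mem_filter, Finset.mem_powerset]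

lemma minBlocks_sys : minBlocks Sys = Sys := by
  have h : ∀ B ∈ Sys, ∀ D ∈ Sys, D ⊆ B → D = B := by decide +kernel
  ext B
  rw [mem_minBlocks]
  exact ⟨fun h => h.1, fun hB => ⟨hB, h B hB⟩⟩

/-- A set that meets all ten blocks. -/
lemma meets_iff (C : Finset (Fin 9)) : (∀ B ∈ Sys, (B ∩ C).Nonempty) ↔
    (0 ∈ C ∨ 6 ∈ C) ∧ (1 ∈ C ∨ 6 ∈ C) ∧ (2 ∈ C ∨ 7 ∈ C) ∧ (3 ∈ C ∨ 7 ∈ C) ∧ (4 ∈ C ∨ 8 ∈ C) ∧
    (5 ∈ C ∨ 8 ∈ C) ∧ (0 ∈ C ∨ 2 ∈ C ∨ 4 ∈ C) ∧ (1 ∈ C ∨ 7 ∈ C ∨ 8 ∈ C) ∧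
    (3 ∈ C ∨ 6 ∈ C ∨ 8 ∈ C) ∧ (5 ∈ C ∨ 6 ∈ C ∨ 7 ∈ C) := by
  simp only [Sys, Finset.mem_insert, Finset.mem_singleton, forall_eq_or_imp, forall_eq,
    Finset.Nonempty, Finset.mem_inter, or_and_right, exists_or, exists_eq_left]

/-- The ten minimal transversals. -/
def Tr : Finset (Finset (Fin 9)) :=
  {{0, 6, 7, 8}, {2, 6, 7, 8}, {4, 6, 7, 8}, {0, 1, 7, 8}, {2, 3, 6, 8}, {4, 5, 6, 7},
    {0, 1, 2, 3, 4, 5}, {1, 2, 3, 4, 5, 6}, {0, 1, 3, 4, 5, 7}, {0, 1, 2, 3, 5, 8}}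

lemma tr_meets : ∀ C ∈ Tr, ∀ B ∈ Sys, (B ∩ C).Nonempty := by decide +kernel

lemma tr_private : ∀ C ∈ Tr, ∀ x ∈ C, ∃ B ∈ Sys, B ∩ C = {x} := by decide +kernel

lemma tr_sub {C : Finset (Fin 9)} (hC : C ∈ Tr) : C ∈ dual univ Sys := by
  unfold dual
  rw [minBlocks_sys, mem_minBlocks]
  refine ⟨mem_covers.mpr ⟨Finset.subset_univ _, tr_meets C hC⟩, ?_⟩
  intro D hD hDC
  refine Finset.Subset.antisymm hDC ?_
  intro x hx
  obtain ⟨B, hB, hBC⟩ := tr_private C hC x hx
  obtain ⟨y, hy⟩ := (mem_covers.mp hD).2 B hB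
  rw [Finset.mem_inter] at hy
  have : y ∈ B ∩ C := Finset.mem_inter.mpr ⟨hy.1, hDC hy.2⟩
  rw [hBC, Finset.mem_singleton] at this
  rw [← this]
  exact hy.2

lemma dual_meets {C : Finset (Fin 9)} (hC : C ∈ dual univ Sys) :
    ∀ B ∈ Sys, (B ∩ C).Nonempty := by
  unfold dual at hC
  rw [minBlocks_sys, mem_minBlocks] at hC
  exact (mem_covers.mp hC.1).2

/-- A packing of the blocks given by ten numbers. -/
def pk (y0 y1 y2 y3 y4 y5 t0 t1 t2 t3 : ℕ) (B : Finset (Fin 9)) : ℕ :=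
  if B = {0, 6} then y0 else if B = {1, 6} then y1 else if B = {2, 7} then y2 else
  if B = {3, 7} then y3 else if B = {4, 8} then y4 else if B = {5, 8} then y5 else
  if B = {0, 2, 4} then t0 else if B = {1, 7, 8} then t1 else if B = {3, 6, 8} then t2 else
  if B = {5, 6, 7} then t3 else 0

lemma sum_sys (g : Finset (Fin 9) → ℕ) : ∑ B ∈ Sys, g B =
    g {0, 6} + g {1, 6} + g {2, 7} + g {3, 7} + g {4, 8} + g {5, 8} + g {0, 2, 4} + g {1, 7, 8} +
      g {3, 6, 8} + g {5, 6, 7} := by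
  unfold Sys
  rw [Finset.sum_insert (by decide), Finset.sum_insert (by decide), Finset.sum_insert (by decide),
    Finset.sum_insert (by decide), Finset.sum_insert (by decide), Finset.sum_insert (by decide),
    Finset.sum_insert (by decide), Finset.sum_insert (by decide), Finset.sum_insert (by decide),
    Finset.sum_singleton]
  ring

/-- Weak duality. -/
lemma weak_duality (c : Fin 9 → ℕ) (f : Finset (Fin 9) → ℕ)
    (hf : ∀ x, ∑ B ∈ Sys.filter (fun B => x ∈ B), f B ≤ c x) (C : Finset (Fin 9))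
    (hC : ∀ B ∈ Sys, (B ∩ C).Nonempty) : ∑ B ∈ Sys, f B ≤ ∑ x ∈ C, c x := by
  calc ∑ B ∈ Sys, f B ≤ ∑ B ∈ Sys, ∑ x ∈ C, (if x ∈ B then f B else 0) := by
        refine Finset.sum_le_sum (fun B hB => ?_)
        obtain ⟨x, hx⟩ := hC B hB
        rw [Finset.mem_inter] at hx
        calc f B = (if x ∈ B then f B else 0) := by rw [if_pos hx.1]
          _ ≤ _ := Finset.single_le_sum (f := fun x => if x ∈ B then f B else 0)
              (fun _ _ => Nat.zero_le _) hx.2
    _ = ∑ x ∈ C, ∑ B ∈ Sys, (if x ∈ B then f B else 0) := Finset.sum_comm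
    _ ≤ ∑ x ∈ C, c x := by
        refine Finset.sum_le_sum (fun x _ => ?_)
        rw [← Finset.sum_filter]
        exact hf x

/-- The packing numbers for arbitrary weights. -/
lemma packing (a a' b b' c c' d e f : ℕ) : ∃ y0 y1 y2 y3 y4 y5 t0 t1 t2 t3 : ℕ,
    y0 + t0 ≤ a ∧ y1 + t1 ≤ a' ∧ y2 + t0 ≤ b ∧ y3 + t2 ≤ b' ∧ y4 + t0 ≤ c ∧ y5 + t3 ≤ c' ∧
    y0 + y1 + t2 + t3 ≤ d ∧ y2 + y3 + t1 + t3 ≤ e ∧ y4 + y5 + t1 + t2 ≤ f ∧
    (a + d + e + f ≤ y0 + y1 + y2 + y3 + y4 + y5 + t0 + t1 + t2 + t3 ∨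
    b + d + e + f ≤ y0 + y1 + y2 + y3 + y4 + y5 + t0 + t1 + t2 + t3 ∨
    c + d + e + f ≤ y0 + y1 + y2 + y3 + y4 + y5 + t0 + t1 + t2 + t3 ∨
    a + a' + e + f ≤ y0 + y1 + y2 + y3 + y4 + y5 + t0 + t1 + t2 + t3 ∨
    b + b' + d + f ≤ y0 + y1 + y2 + y3 + y4 + y5 + t0 + t1 + t2 + t3 ∨
    c + c' + d + e ≤ y0 + y1 + y2 + y3 + y4 + y5 + t0 + t1 + t2 + t3 ∨
    a + a' + b + b' + c + c' ≤ y0 + y1 + y2 + y3 + y4 + y5 + t0 + t1 + t2 + t3 ∨
    a' + b + b' + c + c' + d ≤ y0 + y1 + y2 + y3 + y4 + y5 + t0 + t1 + t2 + t3 ∨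
    a + a' + b' + c + c' + e ≤ y0 + y1 + y2 + y3 + y4 + y5 + t0 + t1 + t2 + t3 ∨
    a + a' + b + b' + c' + f ≤ y0 + y1 + y2 + y3 + y4 + y5 + t0 + t1 + t2 + t3) := by
  rcases Nat.lt_or_ge (a + a') d with ha | ha
  · rcases Nat.lt_or_ge (b + b') e with hb | hb
    · rcases Nat.lt_or_ge (c + c') f with hc | hc
      · exact ⟨a, a', b, b', c, c', 0, 0, 0, 0, by omega⟩
      · obtain ⟨t, ht⟩ : ∃ t, t = min (min c' (c + c' - f)) (min (d - (a + a')) (e - (b + b'))) :=
          ⟨_, rfl⟩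
        obtain ⟨y, hy⟩ : ∃ y, y = min c f := ⟨_, rfl⟩
        exact ⟨a, a', b, b', y, f - y, 0, 0, 0, t, by omega⟩
    · rcases Nat.lt_or_ge (c + c') f with hc | hc
      · obtain ⟨t, ht⟩ : ∃ t, t = min (min b' (b + b' - e)) (min (d - (a + a')) (f - (c + c'))) :=
          ⟨_, rfl⟩
        obtain ⟨y, hy⟩ : ∃ y, y = min b e := ⟨_, rfl⟩
        exact ⟨a, a', y, e - y, c, c', 0, 0, t, 0, by omega⟩
      · obtain ⟨y, hy⟩ : ∃ y, y = min b e := ⟨_, rfl⟩
        obtain ⟨z, hz⟩ : ∃ z, z = min c f := ⟨_, rfl⟩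
        exact ⟨a, a', y, e - y, z, f - z, 0, 0, 0, 0, by omega⟩
  · rcases Nat.lt_or_ge (b + b') e with hb | hb
    · rcases Nat.lt_or_ge (c + c') f with hc | hc
      · obtain ⟨t, ht⟩ : ∃ t, t = min (min a' (a + a' - d)) (min (e - (b + b')) (f - (c + c'))) :=
          ⟨_, rfl⟩
        obtain ⟨y, hy⟩ : ∃ y, y = min a d := ⟨_, rfl⟩
        exact ⟨y, d - y, b, b', c, c', 0, t, 0, 0, by omega⟩
      · obtain ⟨y, hy⟩ : ∃ y, y = min a d := ⟨_, rfl⟩
        obtain ⟨z, hz⟩ : ∃ z, z = min c f := ⟨_, rfl⟩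
        exact ⟨y, d - y, b, b', z, f - z, 0, 0, 0, 0, by omega⟩
    · rcases Nat.lt_or_ge (c + c') f with hc | hc
      · obtain ⟨y, hy⟩ : ∃ y, y = min a d := ⟨_, rfl⟩
        obtain ⟨z, hz⟩ : ∃ z, z = min b e := ⟨_, rfl⟩
        exact ⟨y, d - y, z, e - z, c, c', 0, 0, 0, 0, by omega⟩
      · obtain ⟨t, ht⟩ : ∃ t, t = min (min a (min b c)) (min (a + a' - d)
          (min (b + b' - e) (c + c' - f))) := ⟨_, rfl⟩
        obtain ⟨x, hx⟩ : ∃ x, x = min (a - t) d := ⟨_, rfl⟩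
        obtain ⟨y, hy⟩ : ∃ y, y = min (b - t) e := ⟨_, rfl⟩
        obtain ⟨z, hz⟩ : ∃ z, z = min (c - t) f := ⟨_, rfl⟩
        exact ⟨x, d - x, y, e - y, z, f - z, t, 0, 0, 0, by omega⟩

lemma cov_sum (c : Fin 9 → ℕ) (t : ℕ)
    (h : c 0 + c 6 + c 7 + c 8 ≤ t ∨ c 2 + c 6 + c 7 + c 8 ≤ t ∨ c 4 + c 6 + c 7 + c 8 ≤ t ∨
      c 0 + c 1 + c 7 + c 8 ≤ t ∨ c 2 + c 3 + c 6 + c 8 ≤ t ∨ c 4 + c 5 + c 6 + c 7 ≤ t ∨
      c 0 + c 1 + c 2 + c 3 + c 4 + c 5 ≤ t ∨ c 1 + c 2 + c 3 + c 4 + c 5 + c 6 ≤ t ∨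
      c 0 + c 1 + c 3 + c 4 + c 5 + c 7 ≤ t ∨ c 0 + c 1 + c 2 + c 3 + c 5 + c 8 ≤ t) :
    ∃ C ∈ Tr, ∑ x ∈ C, c x ≤ t := by
  rcases h with h | h | h | h | h | h | h | h | h | h
  · refine ⟨{0, 6, 7, 8}, by decide, le_trans (le_of_eq ?_) h⟩
    simp [Finset.sum_insert]; ring
  · refine ⟨{2, 6, 7, 8}, by decide, le_trans (le_of_eq ?_) h⟩
    simp [Finset.sum_insert]; ring
  · refine ⟨{4, 6, 7, 8}, by decide, le_trans (le_of_eq ?_) h⟩
    simp [Finset.sum_insert]; ring
  · refine ⟨{0, 1, 7, 8}, by decide, le_trans (le_of_eq ?_) h⟩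
    simp [Finset.sum_insert]; ring
  · refine ⟨{2, 3, 6, 8}, by decide, le_trans (le_of_eq ?_) h⟩
    simp [Finset.sum_insert]; ring
  · refine ⟨{4, 5, 6, 7}, by decide, le_trans (le_of_eq ?_) h⟩
    simp [Finset.sum_insert]; ring
  · refine ⟨{0, 1, 2, 3, 4, 5}, by decide, le_trans (le_of_eq ?_) h⟩
    simp [Finset.sum_insert]; ring
  · refine ⟨{1, 2, 3, 4, 5, 6}, by decide, le_trans (le_of_eq ?_) h⟩
    simp [Finset.sum_insert]; ring
  · refine ⟨{0, 1, 3, 4, 5, 7}, by decide, le_trans (le_of_eq ?_) h⟩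
    simp [Finset.sum_insert]; ring
  · refine ⟨{0, 1, 2, 3, 5, 8}, by decide, le_trans (le_of_eq ?_) h⟩
    simp [Finset.sum_insert]; ring

lemma mengerian_sys : Mengerian univ Sys := by
  right
  intro c
  obtain ⟨y0, y1, y2, y3, y4, y5, t0, t1, t2, t3, h0, h1, h2, h3, h4, h5, h6, h7, h8, hT⟩ :=
    packing (c 0) (c 1) (c 2) (c 3) (c 4) (c 5) (c 6) (c 7) (c 8)
  set g := pk y0 y1 y2 y3 y4 y5 t0 t1 t2 t3 with hg
  have e0 : g {0, 6} = y0 := by
    rw [hg]; unfold pk
    rw [if_pos rfl]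
  have e1 : g {1, 6} = y1 := by
    rw [hg]; unfold pk
    rw [if_neg (by decide), if_pos rfl]
  have e2 : g {2, 7} = y2 := by
    rw [hg]; unfold pk
    rw [if_neg (by decide), if_neg (by decide), if_pos rfl]
  have e3 : g {3, 7} = y3 := by
    rw [hg]; unfold pk
    rw [if_neg (by decide), if_neg (by decide), if_neg (by decide), if_pos rfl]
  have e4 : g {4, 8} = y4 := by
    rw [hg]; unfold pk
    rw [if_neg (by decide), if_neg (by decide), if_neg (by decide), if_neg (by decide), if_pos rfl]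
  have e5 : g {5, 8} = y5 := by
    rw [hg]; unfold pk
    rw [if_neg (by decide), if_neg (by decide), if_neg (by decide), if_neg (by decide), if_neg (by decide), if_pos rfl]
  have e6 : g {0, 2, 4} = t0 := by
    rw [hg]; unfold pk
    rw [if_neg (by decide), if_neg (by decide), if_neg (by decide), if_neg (by decide), if_neg (by decide), if_neg (by decide), if_pos rfl]
  have e7 : g {1, 7, 8} = t1 := by
    rw [hg]; unfold pk
    rw [if_neg (by decide), if_neg (by decide), if_neg (by decide), if_neg (by decide), if_neg (by decide), if_neg (by decide), if_neg (by decide), if_pos rfl]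
  have e8 : g {3, 6, 8} = t2 := by
    rw [hg]; unfold pk
    rw [if_neg (by decide), if_neg (by decide), if_neg (by decide), if_neg (by decide), if_neg (by decide), if_neg (by decide), if_neg (by decide), if_neg (by decide), if_pos rfl]
  have e9 : g {5, 6, 7} = t3 := by
    rw [hg]; unfold pk
    rw [if_neg (by decide), if_neg (by decide), if_neg (by decide), if_neg (by decide), if_neg (by decide), if_neg (by decide), if_neg (by decide), if_neg (by decide), if_neg (by decide), if_pos rfl]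
  have hcap : ∀ x, ∑ B ∈ Sys.filter (fun B => x ∈ B), g B ≤ c x := by
    intro x
    rw [Finset.sum_filter, sum_sys, e0, e1, e2, e3, e4, e5, e6, e7, e8, e9]
    fin_cases x
    · simp; omega
    · simp; omega
    · simp; omega
    · simp; omega
    · simp; omega
    · simp; omega
    · simp; omega
    · simp; omega
    · simp; omega
  have htot : ∑ B ∈ Sys, g B = y0 + y1 + y2 + y3 + y4 + y5 + t0 + t1 + t2 + t3 := by
    rw [sum_sys, e0, e1, e2, e3, e4, e5, e6, e7, e8, e9]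
  refine ⟨g, fun x _ => hcap x, ?_, ?_⟩
  · obtain ⟨C, hC, hle⟩ := cov_sum c _ hT
    refine ⟨C, tr_sub hC, le_antisymm ?_ ?_⟩
    · rw [htot]; exact hle
    · exact weak_duality c g hcap C (tr_meets C hC)
  · rintro k ⟨C, hC, rfl⟩
    exact weak_duality c g hcap C (dual_meets hC)

lemma minor_form {S : Finset (Fin 9)} {F : Finset (Finset (Fin 9))}
    (h : IsMinor univ Sys S F) : ∃ W T : Finset (Fin 9), Disjoint S W ∧ Disjoint S T ∧
      Disjoint W T ∧ F = (Sys.filter (fun B => Disjoint B T)).image (fun B => B \ W) := by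
  induction h with
  | refl =>
    refine ⟨∅, ∅, by simp, by simp, by simp, ?_⟩
    simp
  | weak S F T' _ hT ih =>
    obtain ⟨W, T, h1, h2, h3, h4⟩ := ih
    refine ⟨W ∪ T', T, ?_, ?_, ?_, ?_⟩
    · rw [Finset.disjoint_union_right]
      exact ⟨Finset.disjoint_of_subset_left Finset.sdiff_subset h1, Finset.sdiff_disjoint⟩
    · exact Finset.disjoint_of_subset_left Finset.sdiff_subset h2
    · rw [Finset.disjoint_union_left]
      exact ⟨h3, Finset.disjoint_of_subset_left hT h2⟩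
    · rw [h4, Finset.image_image]
      refine Finset.image_congr (fun B _ => ?_)
      simp only [Function.comp]
      rw [Finset.sdiff_sdiff_left']
      ext x
      simp only [Finset.mem_sdiff, Finset.mem_union, Finset.mem_inter]
      tauto
  | strong S F T' _ hT ih =>
    obtain ⟨W, T, h1, h2, h3, h4⟩ := ih
    refine ⟨W, T ∪ T', ?_, ?_, ?_, ?_⟩
    · exact Finset.disjoint_of_subset_left Finset.sdiff_subset h1
    · rw [Finset.disjoint_union_right]
      exact ⟨Finset.disjoint_of_subset_left Finset.sdiff_subset h2, Finset.sdiff_disjoint⟩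
    · rw [Finset.disjoint_union_right]
      exact ⟨h3, (Finset.disjoint_of_subset_left hT h1).symm⟩
    · rw [h4]
      ext B
      simp only [Finset.mem_filter, Finset.mem_image]
      constructor
      · rintro ⟨⟨A, ⟨hA, hAT⟩, rfl⟩, hB⟩
        refine ⟨A, ⟨hA, ?_⟩, rfl⟩
        rw [Finset.disjoint_union_right]
        refine ⟨hAT, ?_⟩
        rw [Finset.disjoint_left] at hB ⊢
        intro x hx hx'
        refine hB (Finset.mem_sdiff.mpr ⟨hx, fun hxW => ?_⟩) hx'
        exact Finset.disjoint_left.mp h1 (hT hx') hxW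
      · rintro ⟨A, ⟨hA, hAT⟩, rfl⟩
        rw [Finset.disjoint_union_right] at hAT
        exact ⟨⟨A, ⟨hA, hAT.1⟩, rfl⟩, Finset.disjoint_of_subset_left Finset.sdiff_subset hAT.2⟩

lemma no_Q : ¬ ContainsQ univ Sys := by
  rintro ⟨S, F, hF, φ, hφ, hQ⟩
  obtain ⟨W, T, -, -, -, hFW⟩ := minor_form hF
  -- the blocks with three points of a minor are blocks of the system
  have h3 : ∀ B ∈ minBlocks F, B.card = 3 → B ∈ Sys := by
    intro B hB hc
    have hB1 := (mem_minBlocks.mp hB).1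
    rw [hFW, Finset.mem_image] at hB1
    obtain ⟨A, hA, rfl⟩ := hB1
    rw [Finset.mem_filter] at hA
    have hle : ∀ A ∈ Sys, A.card ≤ 3 := by decide +kernel
    have hsub : A \ W = A := by
      refine Finset.eq_of_subset_of_card_le Finset.sdiff_subset ?_
      rw [hc]
      exact hle A hA.1
    rw [hsub]
    exact hA.1
  have hinj : Function.Injective (fun B : Finset (Fin 6) => B.image φ) :=
    Finset.image_injective hφ
  have hM : (Q.filter (fun B => B.card = 3)).image (fun B => B.image φ) ⊆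
      Sys.filter (fun B => B.card = 3) := by
    intro B hB
    rw [Finset.mem_image] at hB
    obtain ⟨A, hA, rfl⟩ := hB
    rw [Finset.mem_filter] at hA
    have hc : (A.image φ).card = 3 := by
      rw [Finset.card_image_of_injective _ hφ]
      exact hA.2
    rw [Finset.mem_filter]
    refine ⟨h3 _ ?_ hc, hc⟩
    rw [hQ]
    exact Finset.mem_image_of_mem _ hA.1
  have hc1 : (Sys.filter (fun B => B.card = 3)).card = 4 := by decide +kernel
  have hc2 : ((Q.filter (fun B => B.card = 3)).image (fun B => B.image φ)).card = 4 := by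
    rw [Finset.card_image_of_injective _ hinj]
    decide +kernel
  have hM2 := Finset.eq_of_subset_of_card_le hM (by rw [hc1, hc2])
  -- the four triples of the system cover all nine points
  have hcov : ∀ x : Fin 9, ∃ B ∈ Sys.filter (fun B => B.card = 3), x ∈ B := by decide +kernel
  have hsurj : Function.Surjective φ := by
    intro x
    obtain ⟨B, hB, hx⟩ := hcov x
    rw [← hM2, Finset.mem_image] at hB
    obtain ⟨A, -, rfl⟩ := hB
    rw [Finset.mem_image] at hx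
    obtain ⟨y, -, hy⟩ := hx
    exact ⟨y, hy⟩
  have := Fintype.card_le_of_surjective φ hsurj
  simp at this

/-- No two disjoint sets both meet all the blocks. -/
lemma no_two (C D : Finset (Fin 9)) (hC : ∀ B ∈ Sys, (B ∩ C).Nonempty)
    (hD : ∀ B ∈ Sys, (B ∩ D).Nonempty) : ¬ Disjoint C D := by
  intro hdis
  rw [meets_iff] at hC hD
  have h : ∀ x, x ∈ C → x ∉ D := fun x hx hx' => Finset.disjoint_left.mp hdis hx hx'
  have h0 := h 0
  have h1 := h 1
  have h2 := h 2
  have h3 := h 3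
  have h4 := h 4
  have h5 := h 5
  have h6 := h 6
  have h7 := h 7
  have h8 := h 8
  clear h hdis
  obtain ⟨c1, c2, c3, c4, c5, c6, c7, c8, c9, c10⟩ := hC
  obtain ⟨d1, d2, d3, d4, d5, d6, d7, d8, d9, d10⟩ := hD
  by_cases k6 : 6 ∈ C <;> by_cases k7 : 7 ∈ C <;> by_cases k8 : 8 ∈ C <;>
    simp_all

lemma not_menger : ¬ MengerProperty univ (dual univ Sys) := by
  have hne : ∀ C ∈ dual univ Sys, C.Nonempty := by
    intro C hC
    obtain ⟨x, hx⟩ := dual_meets hC {0, 6} (by decide)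
    exact ⟨x, (Finset.mem_inter.mp hx).2⟩
  have hmin : ∀ C ∈ Tr, C ∈ minBlocks (dual univ Sys) := by
    intro C hC
    rw [mem_minBlocks]
    refine ⟨tr_sub hC, fun D hD hDC => ?_⟩
    have h1 := tr_sub hC
    unfold dual at h1 hD
    rw [mem_minBlocks] at h1 hD
    exact h1.2 D hD.1 hDC
  rintro (h | h | ⟨n, hn1, hn2⟩)
  · exact Finset.not_nonempty_empty (hne ∅ h)
  · have := tr_sub (C := {0, 6, 7, 8}) (by decide)
    rw [h] at this
    exact absurd this (Finset.notMem_empty _)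
  · obtain ⟨M, hM, hpd, hcard⟩ := hn1.1
    obtain ⟨C, hC, hCn⟩ := hn2.1
    -- a packing has at most one block
    have hM1 : M.card ≤ 1 := by
      rw [Finset.card_le_one]
      intro A hA B hB
      by_contra hne'
      have hdis := hpd (Finset.mem_coe.mpr hA) (Finset.mem_coe.mpr hB) hne'
      exact no_two A B (dual_meets (mem_minBlocks.mp (hM hA)).1)
        (dual_meets (mem_minBlocks.mp (hM hB)).1) hdis
    -- a transversal of the transversals has at least two points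
    have hC2 : 2 ≤ C.card := by
      unfold dual at hC
      rw [mem_minBlocks] at hC
      have hmeet := (mem_covers.mp hC.1).2
      by_contra hlt
      have hle : C.card ≤ 1 := by omega
      rw [Finset.card_le_one] at hle
      obtain ⟨x, hx⟩ := hmeet {0, 1, 7, 8} (hmin _ (by decide))
      obtain ⟨y, hy⟩ := hmeet {2, 3, 6, 8} (hmin _ (by decide))
      obtain ⟨z, hz⟩ := hmeet {4, 5, 6, 7} (hmin _ (by decide))
      rw [Finset.mem_inter] at hx hy hz
      have e1 := hle x hx.2 y hy.2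
      have e2 := hle x hx.2 z hz.2
      rw [← e1] at hy
      rw [← e2] at hz
      have hfin : ∀ x : Fin 9, x ∈ ({0, 1, 7, 8} : Finset (Fin 9)) →
          x ∈ ({2, 3, 6, 8} : Finset (Fin 9)) → x ∈ ({4, 5, 6, 7} : Finset (Fin 9)) → False := by
        decide
      exact hfin x hx.1 hy.1 hz.1
    omega

/-- **Disproof of Q1.**  There is a Mengerian set system (on nine points, with ten blocks) which
does not contain `𝒬` as a minor and whose Menger dual does not have the Menger property. -/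
theorem result : ∃ (n : ℕ) (F : Finset (Finset (Fin n))),
    Mengerian univ F ∧ ¬ ContainsQ univ F ∧ ¬ MengerProperty univ (dual univ F) :=
  ⟨9, Sys, mengerian_sys, no_Q, not_menger⟩

end Pool.Agent.Results.MP_f18e63_co.NineTenCounterexample
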